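import Mathlib
import Pool.Agent.R285.Ell2
import Pool.Agent.R285.ThreeByThree

/-!
# The row-valued von Neumann inequality does not imply complete contractivity
-/

set_option autoImplicit false
set_option linter.unusedSectionVars false

namespace Pool.Agent.Results.MP_59d57e_an.RowNotSquare

open Polynomial Matrix Pool.Agent.R285.Ell2
open scoped ComplexOrder

section Defs

variable {K : Type*} [NormedAddCommGroup K] [InnerProductSpace ℂ K]

/-- `P(T) : K^m → K^p`, substituting `T` entrywise in the matrix polynomial `P` -/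
noncomputable def polyOp {p m : ℕ} (P : Matrix (Fin p) (Fin m) ℂ[X]) (T : K →L[ℂ] K) :
    PiLp 2 (fun _ : Fin m => K) →L[ℂ] PiLp 2 (fun _ : Fin p => K) :=
  ((PiLp.continuousLinearEquiv 2 ℂ (fun _ : Fin p => K)).symm :
      (Fin p → K) →L[ℂ] PiLp 2 (fun _ : Fin p => K)) ∘L
    ContinuousLinearMap.pi fun i => ∑ j, (aeval T (P i j)) ∘L PiLp.proj 2 (fun _ : Fin m => K) j

/-- `K` (with kernel vectors `k z`, so that `f ∈ K` is the function `z ↦ ⟨k z, f⟩`) is the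
reproducing kernel Hilbert space on `Ω` with kernel `ℓ`. -/
structure IsRKHS (Ω : Set ℂ) (ℓ : ℂ → ℂ → ℂ) (k : ℂ → K) : Prop where
  inner_eq : ∀ z ∈ Ω, ∀ w ∈ Ω, inner ℂ (k z) (k w) = ℓ z w
  total : ∀ f : K, (∀ z ∈ Ω, inner ℂ (k z) f = 0) → f = 0

/-- `A : K^m → K^p` is multiplication by the matrix polynomial `P` -/
def IsMultiplication (Ω : Set ℂ) (k : ℂ → K) {p m : ℕ} (P : Matrix (Fin p) (Fin m) ℂ[X])
    (A : PiLp 2 (fun _ : Fin m => K) →L[ℂ] PiLp 2 (fun _ : Fin p => K)) : Prop :=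
  ∀ F i, ∀ z ∈ Ω, inner ℂ (k z) (A F i) = ∑ j, (P i j).eval z * inner ℂ (k z) (F j)

end Defs

section General

variable {K : Type*} [NormedAddCommGroup K] [InnerProductSpace ℂ K]

lemma polyOp_apply {p m : ℕ} (P : Matrix (Fin p) (Fin m) ℂ[X]) (T : K →L[ℂ] K)
    (F : PiLp 2 (fun _ : Fin m => K)) (i : Fin p) :
    polyOp P T F i = ∑ j, aeval T (P i j) (F j) := by
  simp [polyOp]

/-- eigenvectors -/
lemma eig_poly {T : K →L[ℂ] K} {w : ℂ} {κ : K} (h : ∀ f, inner ℂ κ (T f) = w * inner ℂ κ f)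
    (Q : ℂ[X]) (f : K) : inner ℂ κ (aeval T Q f) = Q.eval w * inner ℂ κ f := by
  induction Q using Polynomial.induction_on' generalizing f with
  | add p q hp hq =>
    rw [map_add, _root_.add_apply, inner_add_right, hp, hq, Polynomial.eval_add]
    ring
  | monomial n a =>
    rw [Polynomial.aeval_monomial, Polynomial.eval_monomial]
    have h2 : ∀ (n : ℕ) (f : K), inner ℂ κ ((T ^ n) f) = w ^ n * inner ℂ κ f := by
      intro n
      induction n with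
      | zero => intro f; simp
      | succ n ih =>
        intro f
        rw [pow_succ, mul_apply_eq_comp, ih, h, pow_succ]
        ring
    rw [mul_apply_eq_comp, Algebra.algebraMap_eq_smul_one,
      _root_.smul_apply, one_apply_eq_self, inner_smul_right, h2]
    ring

variable [CompleteSpace K]

lemma eig_adjoint {T : K →L[ℂ] K} {w : ℂ} {κ : K} (h : ∀ f, inner ℂ κ (T f) = w * inner ℂ κ f)
    (Q : ℂ[X]) : (aeval T Q).adjoint κ = (starRingEnd ℂ (Q.eval w)) • κ := by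
  refine ext_inner_right ℂ fun f => ?_
  rw [ContinuousLinearMap.adjoint_inner_left, eig_poly h, inner_smul_left, Complex.conj_conj]

lemma row_adjoint_le {m : ℕ} (P : Matrix (Fin 1) (Fin m) ℂ[X]) (T : K →L[ℂ] K) (x : K) :
    ∑ j, ‖(aeval T (P 0 j)).adjoint x‖ ^ 2 ≤ ‖polyOp P T‖ ^ 2 * ‖x‖ ^ 2 := by
  set F : PiLp 2 (fun _ : Fin m => K) := WithLp.toLp 2 fun j => (aeval T (P 0 j)).adjoint x with hF
  set s := ∑ j, ‖(aeval T (P 0 j)).adjoint x‖ ^ 2 with hs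
  have hs0 : 0 ≤ s := Finset.sum_nonneg fun _ _ => by positivity
  have hFn : ‖F‖ ^ 2 = s := by
    rw [PiLp.norm_sq_eq_of_L2]
  have h1 : inner ℂ x (polyOp P T F 0) = (s : ℂ) := by
    rw [polyOp_apply, inner_sum, hs, Complex.ofReal_sum]
    refine Finset.sum_congr rfl fun j _ => ?_
    rw [← ContinuousLinearMap.adjoint_inner_left]
    have : F j = (aeval T (P 0 j)).adjoint x := rfl
    rw [this, inner_self_eq_norm_sq_to_K]
    norm_cast
  have h2 : s ≤ ‖x‖ * (‖polyOp P T‖ * ‖F‖) := by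
    have h3 : ‖polyOp P T F 0‖ ≤ ‖polyOp P T F‖ := PiLp.norm_apply_le _ _
    have h4 := (polyOp P T).le_opNorm F
    have h5 : s = ‖inner ℂ x (polyOp P T F 0)‖ := by
      rw [h1, Complex.norm_real, Real.norm_eq_abs, abs_of_nonneg hs0]
    rw [h5]
    exact (norm_inner_le_norm _ _).trans (mul_le_mul_of_nonneg_left (h3.trans h4) (norm_nonneg _))
  rcases hs0.eq_or_lt with h | h
  · rw [← h]; positivity
  · have hFpos : 0 < ‖F‖ := by
      have h6 : 0 < ‖F‖ ^ 2 := by rw [hFn]; exact h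
      refine lt_of_le_of_ne (norm_nonneg F) fun h7 => ?_
      rw [← h7] at h6
      norm_num at h6
    have h3 : ‖F‖ ≤ ‖x‖ * ‖polyOp P T‖ := by
      have h4 : ‖F‖ * ‖F‖ ≤ ‖x‖ * ‖polyOp P T‖ * ‖F‖ := by
        rw [← sq, hFn]; linarith
      exact le_of_mul_le_mul_right h4 hFpos
    calc s = ‖F‖ ^ 2 := hFn.symm
      _ ≤ (‖x‖ * ‖polyOp P T‖) ^ 2 := pow_le_pow_left₀ (norm_nonneg _) h3 2
      _ = _ := by ring

lemma row_le_of_adjoint {m : ℕ} (P : Matrix (Fin 1) (Fin m) ℂ[X]) (T : K →L[ℂ] K) {c : ℝ}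
    (hc : 0 ≤ c) (h : ∀ x, ∑ j, ‖(aeval T (P 0 j)).adjoint x‖ ^ 2 ≤ c ^ 2 * ‖x‖ ^ 2) :
    ‖polyOp P T‖ ≤ c := by
  refine ContinuousLinearMap.opNorm_le_bound _ hc fun F => ?_
  set y := polyOp P T F 0 with hy
  have hyn : ‖polyOp P T F‖ = ‖y‖ := by
    have : ‖polyOp P T F‖ ^ 2 = ‖y‖ ^ 2 := by
      rw [PiLp.norm_sq_eq_of_L2, Fin.sum_univ_one]
    exact (sq_eq_sq₀ (norm_nonneg _) (norm_nonneg _)).1 this
  rw [hyn]
  have h1 : inner ℂ y y = ∑ j, inner ℂ ((aeval T (P 0 j)).adjoint y) (F j) := by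
    have h0 : inner ℂ y y = inner ℂ y (polyOp P T F 0) := rfl
    rw [h0, polyOp_apply, inner_sum]
    exact Finset.sum_congr rfl fun j _ => (ContinuousLinearMap.adjoint_inner_left _ _ _).symm
  have h2 : ‖y‖ ^ 2 ≤ ∑ j, ‖(aeval T (P 0 j)).adjoint y‖ * ‖F j‖ := by
    have h3 : ‖inner ℂ y y‖ = ‖y‖ ^ 2 := by
      rw [inner_self_eq_norm_sq_to_K]
      simp
    rw [← h3, h1]
    exact (norm_sum_le _ _).trans (Finset.sum_le_sum fun j _ => norm_inner_le_norm _ _)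
  have h3 : (∑ j, ‖(aeval T (P 0 j)).adjoint y‖ * ‖F j‖) ^ 2 ≤
      (∑ j, ‖(aeval T (P 0 j)).adjoint y‖ ^ 2) * ∑ j, ‖F j‖ ^ 2 :=
    Finset.sum_mul_sq_le_sq_mul_sq _ _ _
  have h4 : ∑ j, ‖F j‖ ^ 2 = ‖F‖ ^ 2 := by rw [PiLp.norm_sq_eq_of_L2]
  have h5 : (‖y‖ ^ 2) ^ 2 ≤ (c * ‖y‖ * ‖F‖) ^ 2 := by
    calc (‖y‖ ^ 2) ^ 2 ≤ (∑ j, ‖(aeval T (P 0 j)).adjoint y‖ * ‖F j‖) ^ 2 :=
          pow_le_pow_left₀ (by positivity) h2 2
      _ ≤ (∑ j, ‖(aeval T (P 0 j)).adjoint y‖ ^ 2) * ‖F‖ ^ 2 := by rw [← h4]; exact h3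
      _ ≤ (c ^ 2 * ‖y‖ ^ 2) * ‖F‖ ^ 2 := mul_le_mul_of_nonneg_right (h y) (by positivity)
      _ = _ := by ring
  have h6 : ‖y‖ ^ 2 ≤ c * ‖y‖ * ‖F‖ := (sq_le_sq₀ (by positivity) (by positivity)).1 h5
  rcases (norm_nonneg y).eq_or_lt with h0 | h0
  · rw [← h0]; positivity
  · have h7 : ‖y‖ * ‖y‖ ≤ c * ‖F‖ * ‖y‖ := by rw [← sq]; linarith
    exact le_of_mul_le_mul_right h7 h0

/-- the defect of a row polynomial on combinations of eigenvectors -/
lemma defect {m : ℕ} (P : Matrix (Fin 1) (Fin m) ℂ[X]) (T : K →L[ℂ] K) (w : Fin 3 → ℂ)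
    (κ : Fin 3 → K) (hκ : ∀ i f, inner ℂ (κ i) (T f) = w i * inner ℂ (κ i) f) (c : ℝ)
    (a : Fin 3 → ℂ) :
    ((c ^ 2 * ‖∑ i, a i • κ i‖ ^ 2 -
      ∑ j, ‖(aeval T (P 0 j)).adjoint (∑ i, a i • κ i)‖ ^ 2 : ℝ) : ℂ) =
      ∑ i, ∑ i', star (a i) * (((c ^ 2 : ℝ) : ℂ) -
        ∑ j, (P 0 j).eval (w i) * star ((P 0 j).eval (w i'))) * inner ℂ (κ i) (κ i') * a i' := by
  have h1 : ((‖∑ i, a i • κ i‖ ^ 2 : ℝ) : ℂ) =
      ∑ i, ∑ i', star (a i) * inner ℂ (κ i) (κ i') * a i' := by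
    rw [show ((‖∑ i, a i • κ i‖ ^ 2 : ℝ) : ℂ) = inner ℂ (∑ i, a i • κ i) (∑ i, a i • κ i) by
      rw [inner_self_eq_norm_sq_to_K]; norm_cast]
    rw [sum_inner]
    refine Finset.sum_congr rfl fun i _ => ?_
    rw [inner_sum]
    refine Finset.sum_congr rfl fun i' _ => ?_
    rw [inner_smul_left, inner_smul_right, RCLike.star_def]
    ring
  have h2 : ∀ j, ((‖(aeval T (P 0 j)).adjoint (∑ i, a i • κ i)‖ ^ 2 : ℝ) : ℂ) =
      ∑ i, ∑ i', star (a i) * ((P 0 j).eval (w i) * star ((P 0 j).eval (w i'))) *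
        inner ℂ (κ i) (κ i') * a i' := by
    intro j
    have h3 : (aeval T (P 0 j)).adjoint (∑ i, a i • κ i) =
        ∑ i, (a i * star ((P 0 j).eval (w i))) • κ i := by
      rw [map_sum]
      refine Finset.sum_congr rfl fun i _ => ?_
      rw [map_smul, eig_adjoint (hκ i), smul_smul, RCLike.star_def]
    rw [h3, show ((‖∑ i, (a i * star ((P 0 j).eval (w i))) • κ i‖ ^ 2 : ℝ) : ℂ) =
      inner ℂ (∑ i, (a i * star ((P 0 j).eval (w i))) • κ i)
        (∑ i, (a i * star ((P 0 j).eval (w i))) • κ i) by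
      rw [inner_self_eq_norm_sq_to_K]; norm_cast, sum_inner]
    refine Finset.sum_congr rfl fun i _ => ?_
    rw [inner_sum]
    refine Finset.sum_congr rfl fun i' _ => ?_
    rw [inner_smul_left, inner_smul_right, map_mul, RCLike.star_def, Complex.conj_conj]
    ring
  rw [Complex.ofReal_sub, Complex.ofReal_mul, h1, Complex.ofReal_sum,
    Finset.sum_congr rfl fun j _ => h2 j, Finset.mul_sum, Finset.sum_comm (s := Finset.univ
      (α := Fin m)), ← Finset.sum_sub_distrib]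
  refine Finset.sum_congr rfl fun i _ => ?_
  rw [Finset.mul_sum, Finset.sum_comm (s := Finset.univ (α := Fin m)), ← Finset.sum_sub_distrib]
  refine Finset.sum_congr rfl fun i' _ => ?_
  rw [mul_sub, sub_mul, sub_mul]
  congr 1
  · ring
  · rw [Finset.mul_sum, Finset.sum_mul, Finset.sum_mul]

end General

/-! ### The transfer of the row inequality -/

/-- cube roots of unity -/
noncomputable def om : ℂ := ⟨-1 / 2, Real.sqrt 3 / 2⟩

lemma om_sq : om ^ 2 = ⟨-1 / 2, -(Real.sqrt 3 / 2)⟩ := by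
  have h3 : Real.sqrt 3 * Real.sqrt 3 = 3 := Real.mul_self_sqrt (by norm_num)
  apply Complex.ext
  · simp [om, sq]; nlinarith
  · simp [om, sq]; ring

lemma om_sum : 1 + om + om ^ 2 = 0 := by
  rw [om_sq]
  apply Complex.ext
  · simp [om]; norm_num
  · simp [om]

lemma om_cube : om ^ 3 = 1 := by
  have h : om ^ 3 - 1 = (om - 1) * (1 + om + om ^ 2) := by ring
  rw [om_sum, mul_zero] at h
  exact sub_eq_zero.1 h

lemma om_conj : starRingEnd ℂ om = om ^ 2 := by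
  rw [om_sq]
  apply Complex.ext
  · simp [om]
  · simp [om]

/-- the three points -/
noncomputable def w : Fin 3 → ℂ := ![1, om, om ^ 2]

lemma w_cube (i : Fin 3) : w i ^ 3 = 1 := by
  fin_cases i
  · simp [w]
  · simpa [w] using om_cube
  · simp only [w]
    change (om ^ 2) ^ 3 = 1
    rw [← pow_mul, show 2 * 3 = 3 * 2 by rfl, pow_mul, om_cube, one_pow]

lemma w_gram (i j : Fin 3) : w i * starRingEnd ℂ (w j) + w i ^ 2 * starRingEnd ℂ (w j) ^ 2 =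
    if i = j then 2 else -1 := by
  have h2 : om ^ 2 = -1 - om := by
    have := om_sum
    linear_combination this
  have h3 := om_cube
  have h4 : om ^ 4 = om := by
    calc om ^ 4 = om ^ 3 * om := by ring
      _ = om := by rw [h3, one_mul]
  have h6 : om ^ 6 = 1 := by
    calc om ^ 6 = om ^ 3 * om ^ 3 := by ring
      _ = 1 := by rw [h3, one_mul]
  have h8 : om ^ 8 = om ^ 2 := by
    calc om ^ 8 = om ^ 3 * om ^ 3 * om ^ 2 := by ring
      _ = om ^ 2 := by rw [h3]; ring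
  have h5 : om ^ 5 = om ^ 2 := by
    calc om ^ 5 = om ^ 3 * om ^ 2 := by ring
      _ = om ^ 2 := by rw [h3]; ring
  have h12 : om ^ 12 = 1 := by
    calc om ^ 12 = (om ^ 3) ^ 4 := by ring
      _ = 1 := by rw [h3]; ring
  have h10 : om ^ 10 = om := by
    calc om ^ 10 = (om ^ 3) ^ 3 * om := by ring
      _ = om := by rw [h3]; ring
  have hs := om_sum
  fin_cases i <;> fin_cases j <;> simp [w, om_conj] <;> ring_nf <;>
    (try simp only [h12, h10, h8, h6, h5, h4, h3]) <;> (try ring_nf) <;>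
    (first | (norm_num; done) | linear_combination hs)

/-- transfer of the row inequality -/
lemma row_transfer {H K : Type*} [NormedAddCommGroup H] [InnerProductSpace ℂ H] [CompleteSpace H]
    [NormedAddCommGroup K] [InnerProductSpace ℂ K] [CompleteSpace K]
    (M : H →L[ℂ] H) (T : K →L[ℂ] K) (k : Fin 3 → H) (κ : Fin 3 → K)
    (hk : ∀ i f, inner ℂ (k i) (M f) = w i * inner ℂ (k i) f)
    (hκ : ∀ i f, inner ℂ (κ i) (T f) = w i * inner ℂ (κ i) f)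
    (hkk : ∀ i j, inner ℂ (k i) (k j) = 3 * (if i = j then 3 else -1))
    (hκκ : ∀ i j, inner ℂ (κ i) (κ j) = 3 / 4 * (if i = j then 2 else 1))
    (hspan : ∀ y : K, ∃ a : Fin 3 → ℂ, y = ∑ i, a i • κ i) {m : ℕ}
    (P : Matrix (Fin 1) (Fin m) ℂ[X]) : ‖polyOp P T‖ ≤ ‖polyOp P M‖ := by
  set c := ‖polyOp P M‖ with hc
  set V : Matrix (Fin 3) (Fin m) ℂ := Matrix.of fun i j => (P 0 j).eval (w i) with hV
  have hB : ∀ i i', (V * Vᴴ) i i' = ∑ j, (P 0 j).eval (w i) * star ((P 0 j).eval (w i')) := by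
    intro i i'
    rw [Matrix.mul_apply]
    rfl
  have hsq : ∀ (G : Matrix (Fin 3) (Fin 3) ℂ) (a : Fin 3 → ℂ),
      star a ⬝ᵥ (G *ᵥ a) = ∑ i, ∑ i', star (a i) * G i i' * a i' := by
    intro G a
    simp only [dotProduct, Matrix.mulVec, Pi.star_apply, Finset.mul_sum]
    exact Finset.sum_congr rfl fun i _ => Finset.sum_congr rfl fun j _ => by ring
  have hBpsd : (V * Vᴴ).PosSemidef := posSemidef_self_mul_conjTranspose V
  have hBher : ∀ i j, star ((V * Vᴴ) i j) = (V * Vᴴ) j i := fun i j => hBpsd.1.apply j i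
  have hX : (Matrix.of fun i j => (((c ^ 2 : ℝ) : ℂ) - (V * Vᴴ) i j) * (if i = j then 3 else -1) :
      Matrix (Fin 3) (Fin 3) ℂ).PosSemidef := by
    refine PosSemidef.of_dotProduct_mulVec_nonneg ?_ fun a => ?_
    · ext i j
      simp only [Matrix.conjTranspose_apply, Matrix.of_apply, star_mul', star_sub, hBher]
      by_cases h : i = j
      · subst h; simp
      · simp [h, Ne.symm h]
    · have h1 := row_adjoint_le P M (∑ i, a i • k i)
      rw [← hc] at h1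
      have h2 := defect P M w k hk c a
      have h3 : star a ⬝ᵥ ((Matrix.of fun i j => (((c ^ 2 : ℝ) : ℂ) - (V * Vᴴ) i j) *
          (if i = j then 3 else -1) : Matrix (Fin 3) (Fin 3) ℂ) *ᵥ a) =
          ((1 / 3 * (c ^ 2 * ‖∑ i, a i • k i‖ ^ 2 -
            ∑ j, ‖(aeval M (P 0 j)).adjoint (∑ i, a i • k i)‖ ^ 2) : ℝ) : ℂ) := by
        rw [hsq, Complex.ofReal_mul, h2, Finset.mul_sum]
        refine Finset.sum_congr rfl fun i _ => ?_
        rw [Finset.mul_sum]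
        refine Finset.sum_congr rfl fun i' _ => ?_
        rw [Matrix.of_apply, hB, hkk]
        push_cast
        ring
      rw [h3, Complex.zero_le_real]
      linarith
  have hY := Pool.Agent.R285.ThreeByThree.three (c ^ 2) (V * Vᴴ) hBpsd hX
  refine row_le_of_adjoint P T (norm_nonneg (polyOp P M)) fun y => ?_
  obtain ⟨a, rfl⟩ := hspan y
  have h1 := hY.dotProduct_mulVec_nonneg a
  have h2 := defect P T w κ hκ c a
  have h3 : star a ⬝ᵥ ((Matrix.of fun i j => (((c ^ 2 : ℝ) : ℂ) - (V * Vᴴ) i j) *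
      (if i = j then 2 else 1) : Matrix (Fin 3) (Fin 3) ℂ) *ᵥ a) =
      ((4 / 3 * (c ^ 2 * ‖∑ i, a i • κ i‖ ^ 2 -
        ∑ j, ‖(aeval T (P 0 j)).adjoint (∑ i, a i • κ i)‖ ^ 2) : ℝ) : ℂ) := by
    rw [hsq, Complex.ofReal_mul, h2, Finset.mul_sum]
    refine Finset.sum_congr rfl fun i _ => ?_
    rw [Finset.mul_sum]
    refine Finset.sum_congr rfl fun i' _ => ?_
    rw [Matrix.of_apply, hB, hκκ]
    push_cast
    ring
  rw [h3, Complex.zero_le_real] at h1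
  linarith

/-! ### The example -/

/-- the orthonormal system -/
noncomputable def q : ℕ → ℂ → ℂ
  | 0, _ => 1
  | 1, z => 2 * z
  | 2, z => 2 * z ^ 2
  | (n + 3), z => 4 * (z ^ 3 - 1) * (4 / 5 * z) ^ n

lemma q_summable {z : ℂ} (hz : ‖z‖ < 5 / 4) : Summable fun n => ‖q n z‖ ^ 2 := by
  rw [← summable_nat_add_iff 3]
  have h1 : ‖4 / 5 * z‖ < 1 := by
    rw [norm_mul]
    have : ‖(4 / 5 : ℂ)‖ = 4 / 5 := by norm_num
    rw [this]; linarith
  have h2 : ‖4 / 5 * z‖ ^ 2 < 1 := by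
    have := norm_nonneg (4 / 5 * z)
    nlinarith
  refine ((summable_geometric_of_lt_one (by positivity) h2).mul_left
    (‖4 * (z ^ 3 - 1)‖ ^ 2)).congr fun n => ?_
  simp only [q]
  rw [norm_mul (4 * (z ^ 3 - 1)), norm_pow]
  ring

open Classical in
/-- kernel vectors -/
noncomputable def kv (z : ℂ) : L2 ℕ :=
  if h : Summable fun n => ‖starRingEnd ℂ (q n z)‖ ^ 2 then (exists_mk _ h).choose else 0

lemma kv_apply {z : ℂ} (hz : ‖z‖ < 5 / 4) (n : ℕ) : kv z n = starRingEnd ℂ (q n z) := by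
  have h : Summable fun n => ‖starRingEnd ℂ (q n z)‖ ^ 2 := by
    simpa using q_summable hz
  rw [kv, dif_pos h]
  exact (exists_mk _ h).choose_spec n

lemma kv_hasSum {z : ℂ} (hz : ‖z‖ < 5 / 4) (f : L2 ℕ) :
    HasSum (fun n => q n z * f n) (inner ℂ (kv z) f) := by
  have h := lp.hasSum_inner (𝕜 := ℂ) (kv z) f
  have e : (fun n => q n z * f n) = fun n => inner ℂ (kv z n) (f n) := by
    funext n
    rw [kv_apply hz, RCLike.inner_apply, Complex.conj_conj, mul_comm]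
  rw [e]
  exact h

/-- the evaluation functional, split -/
lemma kv_split {z : ℂ} (hz : ‖z‖ < 5 / 4) (f : L2 ℕ) :
    Summable (fun n => q (n + 3) z * f (n + 3)) ∧
    inner ℂ (kv z) f = f 0 + 2 * z * f 1 + 2 * z ^ 2 * f 2 + ∑' n, q (n + 3) z * f (n + 3) := by
  have h := kv_hasSum hz f
  refine ⟨(summable_nat_add_iff 3).2 h.summable, ?_⟩
  rw [← h.tsum_eq, ← h.summable.sum_add_tsum_nat_add 3]
  simp [Finset.sum_range_succ, q]

/-- multiplication by `z` on coefficients -/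
noncomputable def Lc (f : L2 ℕ) : ℕ → ℂ
  | 0 => 2 * f 2
  | 1 => 1 / 2 * f 0
  | 2 => f 1
  | 3 => 1 / 2 * f 2
  | (n + 4) => 5 / 4 * f (n + 3)

lemma S3_summable (f : L2 ℕ) : Summable fun n => ‖f (n + 3)‖ ^ 2 :=
  (summable_nat_add_iff 3).2 (summable_sq f)

lemma norm_split (f : L2 ℕ) :
    ‖f‖ ^ 2 = ‖f 0‖ ^ 2 + ‖f 1‖ ^ 2 + ‖f 2‖ ^ 2 + ∑' n, ‖f (n + 3)‖ ^ 2 := by
  rw [norm_sq, ← (summable_sq f).sum_add_tsum_nat_add 3]
  simp [Finset.sum_range_succ]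

lemma Lc_summable (f : L2 ℕ) : Summable fun n => ‖Lc f n‖ ^ 2 := by
  rw [← summable_nat_add_iff 4]
  refine ((S3_summable f).mul_left (25 / 16)).congr fun n => ?_
  simp only [Lc]
  rw [norm_mul, mul_pow]
  norm_num

lemma Lc_norm (f : L2 ℕ) : ∑' n, ‖Lc f n‖ ^ 2 =
    1 / 4 * ‖f 0‖ ^ 2 + ‖f 1‖ ^ 2 + 17 / 4 * ‖f 2‖ ^ 2 + 25 / 16 * ∑' n, ‖f (n + 3)‖ ^ 2 := by
  rw [← (Lc_summable f).sum_add_tsum_nat_add 4]
  have h : ∀ n, ‖Lc f (n + 4)‖ ^ 2 = 25 / 16 * ‖f (n + 3)‖ ^ 2 := by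
    intro n
    simp only [Lc]
    rw [norm_mul, mul_pow]
    norm_num
  simp only [h, tsum_mul_left]
  simp only [Finset.sum_range_succ, Finset.range_zero, Finset.sum_empty, Lc, norm_mul, mul_pow]
  norm_num
  ring

lemma exists_M : ∃ M : L2 ℕ →L[ℂ] L2 ℕ, ∀ f n, M f n = Lc f n := by
  refine exists_op Lc 3 (by norm_num) Lc_summable (fun f => ?_) (fun f g j => ?_) (fun c f j => ?_)
  · rw [Lc_norm, norm_split]
    have : 0 ≤ ∑' n, ‖f (n + 3)‖ ^ 2 := tsum_nonneg fun n => by positivity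
    have h0 := sq_nonneg ‖f 0‖
    have h1 := sq_nonneg ‖f 1‖
    have h2 := sq_nonneg ‖f 2‖
    linarith
  · rcases j with _ | _ | _ | _ | j <;> simp only [Lc, lp.coeFn_add, Pi.add_apply] <;> ring
  · rcases j with _ | _ | _ | _ | j <;>
      simp only [Lc, lp.coeFn_smul, Pi.smul_apply, smul_eq_mul] <;> ring

/-- the operator of multiplication by `z` -/
noncomputable def M : L2 ℕ →L[ℂ] L2 ℕ := exists_M.choose

lemma M_apply (f : L2 ℕ) (n : ℕ) : M f n = Lc f n := exists_M.choose_spec f n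

lemma kv_M {z : ℂ} (hz : ‖z‖ < 5 / 4) (f : L2 ℕ) :
    inner ℂ (kv z) (M f) = z * inner ℂ (kv z) f := by
  obtain ⟨h1, h2⟩ := kv_split hz f
  obtain ⟨h3, h4⟩ := kv_split hz (M f)
  rw [h2, h4, h3.tsum_eq_zero_add]
  have h5 : ∀ n, q (n + 1 + 3) z * M f (n + 1 + 3) = z * (q (n + 3) z * f (n + 3)) := by
    intro n
    rw [M_apply]
    change 4 * (z ^ 3 - 1) * (4 / 5 * z) ^ (n + 1) * (5 / 4 * f (n + 3)) =
      z * (4 * (z ^ 3 - 1) * (4 / 5 * z) ^ n * f (n + 3))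
    rw [pow_succ]
    ring
  rw [tsum_congr h5, tsum_mul_left]
  generalize ∑' n, q (n + 3) z * f (n + 3) = S
  simp only [M_apply, Lc, q]
  ring

lemma norm_M (f : L2 ℕ) : ‖M f‖ ^ 2 =
    1 / 4 * ‖f 0‖ ^ 2 + ‖f 1‖ ^ 2 + 17 / 4 * ‖f 2‖ ^ 2 + 25 / 16 * ∑' n, ‖f (n + 3)‖ ^ 2 := by
  rw [norm_sq]
  simp only [M_apply]
  exact Lc_norm f

lemma S3_M (f : L2 ℕ) : ∑' n, ‖M f (n + 3)‖ ^ 2 =
    1 / 4 * ‖f 2‖ ^ 2 + 25 / 16 * ∑' n, ‖f (n + 3)‖ ^ 2 := by
  rw [(S3_summable (M f)).tsum_eq_zero_add]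
  have h : ∀ n, ‖M f (n + 1 + 3)‖ ^ 2 = 25 / 16 * ‖f (n + 3)‖ ^ 2 := by
    intro n
    rw [M_apply]
    change ‖5 / 4 * f (n + 3)‖ ^ 2 = _
    rw [norm_mul, mul_pow]
    norm_num
  rw [tsum_congr h, tsum_mul_left, M_apply]
  simp only [Lc, norm_mul, mul_pow]
  norm_num

lemma norm_three (f : L2 ℕ) : ‖f‖ ^ 2 + ‖M f‖ ^ 2 + ‖M (M f)‖ ^ 2 ≤ 7 * ‖f‖ ^ 2 := by
  rw [norm_M (M f), norm_M f, norm_split f, S3_M, M_apply, M_apply, M_apply]
  simp only [Lc, norm_mul, mul_pow]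
  have : 0 ≤ ∑' n, ‖f (n + 3)‖ ^ 2 := tsum_nonneg fun n => by positivity
  have h0 := sq_nonneg ‖f 0‖
  have h1 := sq_nonneg ‖f 1‖
  have h2 := sq_nonneg ‖f 2‖
  have e1 : ‖(2 : ℂ)‖ = 2 := by norm_num
  have e2 : ‖(1 / 2 : ℂ)‖ = 1 / 2 := by norm_num
  rw [e1, e2]
  nlinarith

/-- the domain -/
def Om : Set ℂ := Metric.ball 0 (5 / 4)

/-- the kernel -/
noncomputable def ell (z v : ℂ) : ℂ :=
  1 + 4 * z * starRingEnd ℂ v + 4 * z ^ 2 * starRingEnd ℂ v ^ 2 +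
    16 * (z ^ 3 - 1) * (starRingEnd ℂ v ^ 3 - 1) / (1 - 16 / 25 * z * starRingEnd ℂ v)

lemma mem_Om {z : ℂ} (hz : z ∈ Om) : ‖z‖ < 5 / 4 := by
  simpa [Om] using hz

lemma w_norm (i : Fin 3) : ‖w i‖ = 1 := by
  have h := w_cube i
  have h2 : ‖w i‖ ^ 3 = 1 := by rw [← norm_pow, h, norm_one]
  exact (pow_eq_one_iff_of_nonneg (norm_nonneg _) (by norm_num)).1 h2

lemma w_lt (i : Fin 3) : ‖w i‖ < 5 / 4 := by rw [w_norm]; norm_num

lemma kv_inner {z v : ℂ} (hz : ‖z‖ < 5 / 4) (hv : ‖v‖ < 5 / 4) :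
    inner ℂ (kv z) (kv v) = ell z v := by
  rw [(kv_split hz (kv v)).2]
  have h1 : ∀ n, q (n + 3) z * kv v (n + 3) =
      16 * (z ^ 3 - 1) * (starRingEnd ℂ v ^ 3 - 1) * (16 / 25 * z * starRingEnd ℂ v) ^ n := by
    intro n
    rw [kv_apply hv]
    simp only [q, map_mul, map_sub, map_pow, map_one, map_div₀, Complex.conj_ofNat]
    rw [show (16 / 25 * z * starRingEnd ℂ v : ℂ) = (4 / 5 * z) * (4 / 5 * starRingEnd ℂ v) by ring,
      mul_pow (4 / 5 * z)]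
    ring
  have h2 : ‖16 / 25 * z * starRingEnd ℂ v‖ < 1 := by
    rw [norm_mul, norm_mul, RCLike.norm_conj]
    have : ‖(16 / 25 : ℂ)‖ = 16 / 25 := by norm_num
    rw [this]
    have := norm_nonneg z
    have := norm_nonneg v
    nlinarith
  rw [tsum_congr h1, tsum_mul_left, tsum_geometric_of_norm_lt_one h2]
  simp only [kv_apply hv, q, map_mul, map_pow, map_one, Complex.conj_ofNat, ell]
  ring

lemma isRKHS : IsRKHS Om ell kv := by
  refine ⟨fun z hz v hv => kv_inner (mem_Om hz) (mem_Om hv), fun f hf => ?_⟩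
  have h0 : ∀ i, f 0 + 2 * w i * f 1 + 2 * w i ^ 2 * f 2 = 0 := by
    intro i
    have h1 := hf (w i) (by simpa [Om] using w_lt i)
    rw [(kv_split (w_lt i) f).2] at h1
    have h2 : ∀ n, q (n + 3) (w i) * f (n + 3) = 0 := by
      intro n
      simp only [q]
      rw [w_cube]
      ring
    simpa [h2] using h1
  have hs := om_sum
  have hc := om_cube
  have g0 := h0 0
  have g1 := h0 1
  have g2 := h0 2
  have e0 : w 0 = 1 := rfl
  have e1 : w 1 = om := rfl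
  have e2 : w 2 = om ^ 2 := rfl
  rw [e0] at g0
  rw [e1] at g1
  rw [e2] at g2
  have f0 : f 0 = 0 := by
    linear_combination (1 / 3 : ℂ) * (g0 + g1 + g2) - (2 / 3 : ℂ) * f 1 * hs -
      (2 / 3 : ℂ) * f 2 * hs - (2 / 3 : ℂ) * f 2 * om * hc
  have f1 : f 1 = 0 := by
    linear_combination (1 / 6 : ℂ) * (g0 + om ^ 2 * g1 + om * g2) - (1 / 6 : ℂ) * f 0 * hs -
      (1 / 3 : ℂ) * f 1 * (2 * hc) - (1 / 3 : ℂ) * f 2 * (hs + om * hc + om ^ 2 * hc)
  have f2 : f 2 = 0 := by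
    have g3 : 2 * f 2 = 0 := by
      rw [f0, f1] at g0
      linear_combination g0
    simpa using g3
  have h3 : ∀ n, (4 / 5 : ℂ) ^ n * f (n + 3) = 0 := by
    refine coeff_zero _ ‖f‖ (fun n => ?_) fun z hz => ?_
    · rw [norm_mul, norm_pow]
      have h4 : ‖(4 / 5 : ℂ)‖ ^ n ≤ 1 := pow_le_one₀ (norm_nonneg _) (by norm_num)
      calc ‖(4 / 5 : ℂ)‖ ^ n * ‖f (n + 3)‖ ≤ 1 * ‖f‖ :=
            mul_le_mul h4 (coe_le f _) (norm_nonneg _) (by norm_num)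
        _ = ‖f‖ := one_mul _
    · have hz' : ‖z‖ < 5 / 4 := by linarith
      have h1 := hf z (by simpa [Om] using hz')
      rw [(kv_split hz' f).2, f0, f1, f2] at h1
      have h2 : ∀ n, q (n + 3) z * f (n + 3) =
          4 * (z ^ 3 - 1) * ((4 / 5 : ℂ) ^ n * f (n + 3) * z ^ n) := by
        intro n
        simp only [q]
        rw [mul_pow]
        ring
      simp only [h2, tsum_mul_left] at h1
      have h5 : 4 * (z ^ 3 - 1) ≠ 0 := by
        intro h6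
        have h7 : z ^ 3 = 1 := by
          have : z ^ 3 - 1 = 0 := by simpa using h6
          exact sub_eq_zero.1 this
        have h8 : ‖z‖ ^ 3 = 1 := by rw [← norm_pow, h7, norm_one]
        have h9 := (pow_eq_one_iff_of_nonneg (norm_nonneg z) (by norm_num)).1 h8
        linarith
      have h6 : 4 * (z ^ 3 - 1) * ∑' n, (4 / 5 : ℂ) ^ n * f (n + 3) * z ^ n = 0 := by
        linear_combination h1
      exact (mul_eq_zero.1 h6).resolve_left h5
  refine lp.ext (funext fun n => ?_)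
  rcases n with _ | _ | _ | n
  · exact f0
  · exact f1
  · exact f2
  · have := h3 n
    exact (mul_eq_zero.1 this).resolve_left (pow_ne_zero _ (by norm_num))

lemma isMult {p m : ℕ} (P : Matrix (Fin p) (Fin m) ℂ[X]) :
    IsMultiplication Om kv P (polyOp P M) := by
  intro F i z hz
  rw [polyOp_apply, inner_sum]
  exact Finset.sum_congr rfl fun j _ => eig_poly (kv_M (mem_Om hz)) _ _

lemma isMult_unique {p m : ℕ} (P : Matrix (Fin p) (Fin m) ℂ[X])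
    (A : PiLp 2 (fun _ : Fin m => L2 ℕ) →L[ℂ] PiLp 2 (fun _ : Fin p => L2 ℕ))
    (hA : IsMultiplication Om kv P A) : A = polyOp P M := by
  refine ContinuousLinearMap.ext fun F => ?_
  ext1 i
  have h := isRKHS.total (A F i - polyOp P M F i) fun z hz => by
    rw [inner_sub_right, hA F i z hz, isMult P F i z hz, sub_self]
  exact sub_eq_zero.1 h

/-! ### The operator `T` -/

/-- `ℂ³` -/
abbrev E3 : Type := EuclideanSpace ℂ (Fin 3)

/-- the operator `T` on `ℂ³`, `T(x₀, x₁, x₂) = (x₂/2, 2x₀, x₁)` -/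
noncomputable def T : E3 →L[ℂ] E3 :=
  Matrix.toEuclideanCLM (n := Fin 3) (𝕜 := ℂ) !![0, 0, 1 / 2; 2, 0, 0; 0, 1, 0]

lemma T_apply (x : E3) : T x = WithLp.toLp 2 ![1 / 2 * x 2, 2 * x 0, x 1] := by
  apply (WithLp.ofLp_injective 2)
  rw [T, Matrix.ofLp_toEuclideanCLM]
  funext i
  fin_cases i <;> simp [Matrix.mulVec, dotProduct, Fin.sum_univ_three]

/-- eigenvectors of the adjoint of `T` -/
noncomputable def kap (i : Fin 3) : E3 :=
  WithLp.toLp 2 ![1, 1 / 2 * starRingEnd ℂ (w i), 1 / 2 * starRingEnd ℂ (w i) ^ 2]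

lemma kap_inner (i : Fin 3) (x : E3) :
    inner ℂ (kap i) x = x 0 + 1 / 2 * w i * x 1 + 1 / 2 * w i ^ 2 * x 2 := by
  rw [PiLp.inner_apply, Fin.sum_univ_three]
  simp only [RCLike.inner_apply, kap]
  simp [Complex.conj_ofNat]
  ring

lemma kap_T (i : Fin 3) (x : E3) : inner ℂ (kap i) (T x) = w i * inner ℂ (kap i) x := by
  rw [kap_inner, kap_inner, T_apply]
  have h := w_cube i
  simp
  linear_combination (-1 / 2 : ℂ) * x 2 * h

lemma kap_gram (i j : Fin 3) : inner ℂ (kap i) (kap j) = 3 / 4 * (if i = j then 2 else 1) := by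
  rw [kap_inner]
  have h := w_gram i j
  have h2 : (kap j) 0 + 1 / 2 * w i * (kap j) 1 + 1 / 2 * w i ^ 2 * (kap j) 2 =
      1 + 1 / 4 * (w i * starRingEnd ℂ (w j) + w i ^ 2 * starRingEnd ℂ (w j) ^ 2) := by
    simp [kap]
    ring
  rw [h2, h]
  split_ifs <;> norm_num

lemma kv_gram (i j : Fin 3) : inner ℂ (kv (w i)) (kv (w j)) = 3 * (if i = j then 3 else -1) := by
  rw [kv_inner (w_lt i) (w_lt j), ell, w_cube]
  have h := w_gram i j
  have h2 : (1 + 4 * w i * starRingEnd ℂ (w j) + 4 * w i ^ 2 * starRingEnd ℂ (w j) ^ 2 +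
      16 * (1 - 1) * (starRingEnd ℂ (w j) ^ 3 - 1) / (1 - 16 / 25 * w i * starRingEnd ℂ (w j)) : ℂ) =
      1 + 4 * (w i * starRingEnd ℂ (w j) + w i ^ 2 * starRingEnd ℂ (w j) ^ 2) := by
    ring
  rw [h2, h]
  split_ifs <;> norm_num

lemma kap_span (y : E3) : ∃ a : Fin 3 → ℂ, y = ∑ i, a i • kap i := by
  refine ⟨fun i => 1 / 3 * (y 0 + 2 * y 1 * w i + 2 * y 2 * w i ^ 2), ?_⟩
  have e0 : w 0 = 1 := rfl
  have e1 : w 1 = om := rfl
  have e2 : w 2 = om ^ 2 := rfl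
  have hs := om_sum
  have hc := om_cube
  ext i
  rw [Fin.sum_univ_three]
  fin_cases i
  · simp [kap, e0, e1, e2]
    linear_combination (-2 / 3 : ℂ) * (y 1) * hs - (2 / 3 : ℂ) * y 2 * (hs + om * hc)
  · simp [kap, e0, e1, e2, om_conj]
    linear_combination (-1 / 6 : ℂ) * (y 0) * (hs + om * hc) - (1 / 3 : ℂ) * y 1 *
      (hc + (om ^ 3 + 1) * hc) - (1 / 3 : ℂ) * y 2 * (hs + om * hc + om ^ 2 * (om ^ 3 + 1) * hc)
  · simp [kap, e0, e1, e2, om_conj]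
    linear_combination (-1 / 6 : ℂ) * (y 0) * (hs + om * hc + om ^ 2 * (om ^ 3 + 1) * hc) -
      (1 / 3 : ℂ) * y 1 * (hs + om ^ 2 * hc + om * (om ^ 6 + om ^ 3 + 1) * hc) -
      (1 / 3 : ℂ) * y 2 * ((om ^ 3 + 1) * hc + (om ^ 9 + om ^ 6 + om ^ 3 + 1) * hc)

/-! ### The main theorem -/

/-- the first column `(1, z, z²)` -/
noncomputable def P0 : Matrix (Fin 3) (Fin 3) ℂ[X] :=
  Matrix.of fun i j => if j = 0 then X ^ (i : ℕ) else 0

lemma polyOp_P0 {K : Type*} [NormedAddCommGroup K] [InnerProductSpace ℂ K] (S : K →L[ℂ] K)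
    (F : PiLp 2 (fun _ : Fin 3 => K)) (i : Fin 3) : polyOp P0 S F i = (S ^ (i : ℕ)) (F 0) := by
  rw [polyOp_apply, Fin.sum_univ_three]
  simp [P0]

lemma polyOp_P0_norm {K : Type*} [NormedAddCommGroup K] [InnerProductSpace ℂ K] (S : K →L[ℂ] K)
    (F : PiLp 2 (fun _ : Fin 3 => K)) :
    ‖polyOp P0 S F‖ ^ 2 = ‖F 0‖ ^ 2 + ‖S (F 0)‖ ^ 2 + ‖S (S (F 0))‖ ^ 2 := by
  rw [PiLp.norm_sq_eq_of_L2, Fin.sum_univ_three, polyOp_P0, polyOp_P0, polyOp_P0]
  simp [pow_two, mul_apply_eq_comp]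

lemma P0_M : ‖polyOp P0 M‖ < 3 := by
  have h : ‖polyOp P0 M‖ ≤ Real.sqrt 7 := by
    refine ContinuousLinearMap.opNorm_le_bound _ (Real.sqrt_nonneg _) fun F => ?_
    rw [← sq_le_sq₀ (norm_nonneg _) (by positivity), mul_pow, Real.sq_sqrt (by norm_num),
      polyOp_P0_norm]
    refine (norm_three _).trans ?_
    have h1 : ‖F 0‖ ≤ ‖F‖ := PiLp.norm_apply_le _ _
    have h2 : ‖F 0‖ ^ 2 ≤ ‖F‖ ^ 2 := pow_le_pow_left₀ (norm_nonneg _) h1 2
    linarith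
  refine h.trans_lt ?_
  rw [Real.sqrt_lt' (by norm_num)]
  norm_num

lemma P0_T : 3 ≤ ‖polyOp P0 T‖ := by
  set F : PiLp 2 (fun _ : Fin 3 => E3) :=
    WithLp.toLp 2 ![WithLp.toLp 2 ![1, 0, 0], 0, 0] with hF
  have hFn : ‖F‖ ^ 2 = 1 := by
    rw [PiLp.norm_sq_eq_of_L2, Fin.sum_univ_three]
    have e0 : F 0 = WithLp.toLp 2 ![1, 0, 0] := rfl
    have e1 : F 1 = 0 := rfl
    have e2 : F 2 = 0 := rfl
    rw [e0, e1, e2, PiLp.norm_sq_eq_of_L2, Fin.sum_univ_three]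
    simp
  have hPF : ‖polyOp P0 T F‖ ^ 2 = 9 := by
    rw [polyOp_P0_norm]
    have e0 : F 0 = WithLp.toLp 2 ![1, 0, 0] := rfl
    rw [e0, T_apply, T_apply]
    simp only [PiLp.norm_sq_eq_of_L2, Fin.sum_univ_three]
    simp
    norm_num
  have h1 : ‖F‖ = 1 := (pow_eq_one_iff_of_nonneg (norm_nonneg _) (by norm_num)).1 hFn
  have h2 := (polyOp P0 T).le_opNorm F
  rw [h1, mul_one] at h2
  have h3 : ‖polyOp P0 T F‖ = 3 := by
    have h4 : ‖polyOp P0 T F‖ ^ 2 = 3 ^ 2 := by rw [hPF]; norm_num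
    exact (sq_eq_sq₀ (norm_nonneg _) (by norm_num)).1 h4
  linarith

section Statement

variable {H K : Type*} [NormedAddCommGroup H] [InnerProductSpace ℂ H]
  [NormedAddCommGroup K] [InnerProductSpace ℂ K]

/-- the row inequality for `T` -/
def RowInequality (Ω : Set ℂ) (k : ℂ → H) (T : K →L[ℂ] K) : Prop :=
  ∀ (m : ℕ) (P : Matrix (Fin 1) (Fin m) ℂ[X])
    (A : PiLp 2 (fun _ : Fin m => H) →L[ℂ] PiLp 2 (fun _ : Fin 1 => H)),
    IsMultiplication Ω k P A → ‖polyOp P T‖ ≤ ‖A‖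

/-- `T` is `Mult(H_ℓ)`-contractive -/
def MultContractive (Ω : Set ℂ) (k : ℂ → H) (T : K →L[ℂ] K) : Prop :=
  ∀ (m : ℕ) (P : Matrix (Fin m) (Fin m) ℂ[X])
    (A : PiLp 2 (fun _ : Fin m => H) →L[ℂ] PiLp 2 (fun _ : Fin m => H)),
    IsMultiplication Ω k P A → ‖polyOp P T‖ ≤ ‖A‖

end Statement

/-- **Theorem.** The row inequality does not imply complete contractivity. -/
theorem result :
    IsRKHS Om ell kv ∧
    (∃ M : L2 ℕ →L[ℂ] L2 ℕ, ∀ f, ∀ z ∈ Om, inner ℂ (kv z) (M f) = z * inner ℂ (kv z) f) ∧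
    (∀ (p m : ℕ) (P : Matrix (Fin p) (Fin m) ℂ[X]), ∃ A, IsMultiplication Om kv P A) ∧
    RowInequality Om kv T ∧ ¬ MultContractive Om kv T := by
  refine ⟨isRKHS, ⟨M, fun f z hz => kv_M (mem_Om hz) f⟩, fun p m P => ⟨_, isMult P⟩, ?_, ?_⟩
  · intro m P A hA
    rw [isMult_unique P A hA]
    exact row_transfer M T (fun i => kv (w i)) kap (fun i f => kv_M (w_lt i) f) kap_T kv_gram
      kap_gram kap_span P
  · intro h
    have h1 := h 3 P0 _ (isMult P0)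
    exact absurd (P0_T.trans h1) (not_le.2 P0_M)

end Pool.Agent.Results.MP_59d57e_an.RowNotSquare
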